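import Pool.Agent.N822.TZ.Stm

/-! Project TZ, part HH2: at least two header blocks (helper196). -/

set_option autoImplicit false

namespace Pool.Agent.N196.TZ

open Pool.Agent.N822.TZ Pool.Agent.N822.TZ.Symb

theorem two_words (n : ℕ) : ∃ w w' : ℕ → Bool, LL n w ∧ LL n w' ∧ ∃ i < 2 ^ kk n, w i ≠ w' i := by
  induction n with
  | zero =>
    exact ⟨fun _ => true, fun _ => false, LL_zero _, LL_zero _, 0, by positivity, by simp⟩
  | succ n ih =>
    obtain ⟨w, w', hw, hw', i, hi, hne⟩ := ih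
    obtain ⟨W, hW, hWi, -⟩ := exists_pair n (lev n) (u := w) (v := w) hw hw
    obtain ⟨W', hW', hWi', -⟩ := exists_pair n (lev n) (u := w') (v := w') hw' hw'
    refine ⟨W, W', hW, hW', hn (lev n) * 2 ^ (lev n).k + i, ?_, ?_⟩
    · have h1 := hn_add_two_le n (lev n)
      have h2 : 2 ^ kk (n + 1) = 2 ^ (hn (lev n) + n + 5) * 2 ^ (lev n).k := by
        rw [kk_succ, pow_add, mul_comm]
        rfl
      rw [h2]
      have h3 : (hn (lev n) + 1) * 2 ^ (lev n).k ≤ 2 ^ (hn (lev n) + n + 5) * 2 ^ (lev n).k :=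
        Nat.mul_le_mul_right _ (by omega)
      have h4 : (hn (lev n) + 1) * 2 ^ (lev n).k = hn (lev n) * 2 ^ (lev n).k + 2 ^ (lev n).k := by
        ring
      have h5 : i < 2 ^ (lev n).k := hi
      omega
    · rw [hWi i hi, hWi' i hi]
      exact hne

theorem t_HH2 : S_HH2 := by
  intro n
  obtain ⟨w, w', hw, hw', i, hi, hne⟩ := two_words n
  obtain ⟨q, hq, h1⟩ := Hd_all (lev n) w hw
  obtain ⟨q', hq', h2⟩ := Hd_all (lev n) w' hw'
  have h3 : hh n = hn (lev n) := rfl
  by_contra hlt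
  have e1 : q = 0 := by omega
  have e2 : q' = 0 := by omega
  subst e1
  subst e2
  exact hne ((h1 i hi).symm.trans (h2 i hi))

end Pool.Agent.N196.TZ
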